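import Mathlib
import Pool.Agent.H.MP_8e2340_co.Main

set_option autoImplicit false

namespace Pool.Agent.Results.MP_8e2340_co.Four

open Pool.Agent.H.MP_8e2340_co

/-- only the identity among the rigid motions `z ↦ a z + b`, `‖a‖ = 1`, preserves `c` -/
def Distinguishing {k : ℕ} (c : ℂ → Fin k) : Prop :=
  ∀ a b : ℂ, ‖a‖ = 1 → (∀ z, c (a * z + b) = c z) → a = 1 ∧ b = 0

/-- trivial pointwise stabiliser -/
def Admissible (W : Set ℂ) : Prop :=
  ∀ a b : ℂ, ‖a‖ = 1 → (∀ w ∈ W, a * w + b = w) → a = 1 ∧ b = 0

/-- every 2-colouring of the complement of `W` extends to a distinguishing one -/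
def Extends (W : Set ℂ) : Prop :=
  ∀ c : ↥(Wᶜ) → Fin 2, ∃ c' : ℂ → Fin 2, (∀ z : ↥(Wᶜ), c' z = c z) ∧ Distinguishing c'

lemma four (W : Set ℂ) (hW : (4 : ℕ∞) ≤ W.encard) : Extends W := by
  classical
  intro c
  obtain ⟨U, hUW, hU⟩ := Set.exists_subset_encard_eq hW
  have hUf : U.Finite := Set.finite_of_encard_eq_coe (k := 4) hU
  have hcard : hUf.toFinset.card = 4 := by
    have := hUf.encard_eq_coe_toFinset_card
    rw [hU] at this
    exact_mod_cast this.symm
  let e := Finset.equivFinOfCardEq hcard
  let w : Fin 4 → ℂ := fun i => (e.symm i : ℂ)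
  have hwi : Function.Injective w := fun i j h => e.symm.injective (Subtype.ext h)
  have hwW : ∀ i, w i ∈ W := fun i => hUW (hUf.mem_toFinset.mp (e.symm i).2)
  let col : Finset (Fin 4) → ℂ → Fin 2 := fun S z =>
    if h : z ∈ W then (if ∃ i ∈ S, z = w i then 1 else 0) else c ⟨z, h⟩
  by_contra hcon
  push Not at hcon
  refine main (w := w) (F := fun S z => ((col S z : ℕ) : ℤ)) ⟨hwi, ?_, ?_, ?_⟩ ?_
  · intro S z
    generalize col S z = x
    revert x; decide
  · intro S i
    simp only [col, hwW i, dite_true, hwi.eq_iff, exists_eq_right']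
    split_ifs <;> rfl
  · intro S S' z hz
    simp only [col, hz, and_false, exists_false, if_false]
  · intro S
    have h1 := hcon (col S) (fun z => by
      have : (z : ℂ) ∉ W := z.2
      simp only [col, this, dite_false])
    unfold Distinguishing at h1
    push Not at h1
    obtain ⟨a, b, ha, h2, h3⟩ := h1
    exact ⟨a, b, ha, fun h => h3 h.1 h.2, fun z => by simp only [h2 z]⟩

lemma om : ∃ u : ℂ, u ^ 2 + u + 1 = 0 ∧ ‖u‖ = 1 := by
  refine ⟨⟨-1 / 2, Real.sqrt 3 / 2⟩, ?_, ?_⟩
  · have h := Real.mul_self_sqrt (show (0 : ℝ) ≤ 3 by norm_num)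
    apply Complex.ext
    · simp [pow_two]; nlinarith
    · simp [pow_two]; ring
  · have h := Real.mul_self_sqrt (show (0 : ℝ) ≤ 3 by norm_num)
    rw [Complex.norm_def, Complex.normSq_mk]
    have : (-1 / 2 : ℝ) * (-1 / 2) + Real.sqrt 3 / 2 * (Real.sqrt 3 / 2) = 1 := by nlinarith
    rw [this, Real.sqrt_one]

lemma three : ∃ W : Set ℂ, W.encard = 3 ∧ Admissible W ∧ ¬ Extends W := by
  obtain ⟨u, hu, hn⟩ := om
  have h1 : u ≠ 1 := by rintro rfl; norm_num at hu
  have h0 : u ≠ 0 := by rintro rfl; norm_num at hu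
  have h3 : u ^ 3 = 1 := by linear_combination (u - 1) * hu
  have h2 : u ^ 2 ≠ 1 := by
    intro h; apply h1; linear_combination h3 - u * h
  have h4 : u ^ 2 ≠ u := by
    intro h; apply h1; apply mul_left_cancel₀ h0; linear_combination h
  refine ⟨{1, u, u ^ 2}, ?_, ?_, ?_⟩
  · rw [Set.encard_eq_three]
    exact ⟨1, u, u ^ 2, h1.symm, h2.symm, h4.symm, rfl⟩
  · intro a b _ h
    have e1 := h 1 (by simp)
    have e2 := h u (by simp)
    have : (a - 1) * (u - 1) = 0 := by linear_combination e2 - e1
    rcases mul_eq_zero.mp this with h | h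
    · have ha : a = 1 := sub_eq_zero.mp h
      exact ⟨ha, by rw [ha] at e1; linear_combination e1⟩
    · exact absurd (sub_eq_zero.mp h) h1
  · intro h
    obtain ⟨c, hc, hd⟩ := h (fun _ => 0)
    have hc' : ∀ z, z ≠ 1 → z ≠ u → z ≠ u ^ 2 → c z = 0 := fun z a1 a2 a3 =>
      hc ⟨z, by simp [a1, a2, a3]⟩
    have f2 : ∀ x : Fin 2, x = 0 ∨ x = 1 := by decide
    -- a motion preserving the set of points of colour one preserves the colouring
    have key : ∀ a b : ℂ, ‖a‖ = 1 → (∀ z, c (a * z + b) = 1 ↔ c z = 1) → a = 1 := by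
      intro a b ha hz
      refine (hd a b ha (fun z => ?_)).1
      have := hz z
      revert this
      generalize c (a * z + b) = x
      generalize c z = y
      revert x y; decide
    have two : ∀ p q : ℂ, (∀ z, c z = 1 ↔ z = p ∨ z = q) → False := by
      intro p q hz
      have := key (-1) (p + q) (by simp) (fun z => by
        rw [hz, hz]
        constructor
        · rintro (h | h)
          · right; linear_combination -h
          · left; linear_combination -h
        · rintro (h | h)
          · right; linear_combination -h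
          · left; linear_combination -h)
      norm_num at this
    have hall : ∀ z, c z = 1 ↔ (z = 1 ∧ c 1 = 1) ∨ (z = u ∧ c u = 1) ∨ (z = u ^ 2 ∧ c (u ^ 2) = 1) := by
      intro z
      constructor
      · intro h
        by_cases a1 : z = 1
        · left; exact ⟨a1, a1 ▸ h⟩
        by_cases a2 : z = u
        · right; left; exact ⟨a2, a2 ▸ h⟩
        by_cases a3 : z = u ^ 2
        · right; right; exact ⟨a3, a3 ▸ h⟩
        rw [hc' z a1 a2 a3] at h
        exact absurd h (by decide)
      · rintro (h | h | h) <;> rw [h.1] <;> exact h.2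
    rcases f2 (c 1) with b1 | b1 <;> rcases f2 (c u) with b2 | b2 <;>
      rcases f2 (c (u ^ 2)) with b3 | b3
    · have := key (-1) 0 (by simp) (fun z => by rw [hall, hall z]; simp [b1, b2, b3])
      norm_num at this
    · exact two (u ^ 2) (u ^ 2) (fun z => by rw [hall]; simp [b1, b2, b3])
    · exact two u u (fun z => by rw [hall]; simp [b1, b2, b3])
    · exact two u (u ^ 2) (fun z => by rw [hall]; simp [b1, b2, b3])
    · exact two 1 1 (fun z => by rw [hall]; simp [b1, b2, b3])
    · exact two 1 (u ^ 2) (fun z => by rw [hall]; simp [b1, b2, b3])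
    · exact two 1 u (fun z => by rw [hall]; simp [b1, b2, b3])
    · apply h1
      apply key u 0 hn
      intro z
      rw [hall, hall z]
      simp only [b1, b2, b3, and_true, add_zero]
      constructor
      · rintro (h | h | h)
        · right; right; apply mul_left_cancel₀ h0; linear_combination h - h3
        · left; apply mul_left_cancel₀ h0; linear_combination h
        · right; left; apply mul_left_cancel₀ h0; linear_combination h
      · rintro (h | h | h)
        · right; left; rw [h, mul_one]
        · right; right; rw [h]; ring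
        · left; rw [h]; linear_combination h3

theorem result :
    IsLeast {k : ℕ | ∃ c : ℂ → Fin k, Distinguishing c} 2 ∧
    IsLeast {n : ℕ | ∀ W : Set ℂ, Admissible W → (n : ℕ∞) ≤ W.encard → Extends W} 4 := by
  refine ⟨⟨?_, ?_⟩, fun W _ h => four W h, ?_⟩
  · obtain ⟨c, -, hc⟩ := four Set.univ (by simp) (fun _ => 0)
    exact ⟨c, hc⟩
  · rintro k ⟨c, hc⟩
    by_contra hk
    have : k = 0 ∨ k = 1 := by omega
    rcases this with rfl | rfl
    · exact (c 0).elim0
    · have := (hc 1 1 (by simp) (fun z => Subsingleton.elim _ _)).2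
      exact one_ne_zero this
  · intro n hn
    by_contra h
    obtain ⟨W, h1, h2, h3⟩ := three
    apply h3
    apply hn W h2
    rw [h1]
    have : n ≤ 3 := by omega
    exact_mod_cast this

end Pool.Agent.Results.MP_8e2340_co.Four
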